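import Pool.Agent.Y240.SW.DF2

set_option autoImplicit false

/-!
SW project (helper745, MP_6bc78b_nt), job DF, part 3: the Gaussian averages of a continuous function on `[-1, 1]`.
-/

namespace Pool.Agent.Y240.SW

open ArithmeticFunction MeasureTheory Filter Topology

noncomputable section

/-- the function `B` cut off outside `[-1, 1]` -/
def bet (B : ℝ → ℝ) (ξ : ℝ) : ℝ := (Set.Ioc (-1:ℝ) 1).indicator B ξ

/-- the Gaussian average -/
def GG (B : ℝ → ℝ) (a u w : ℝ) : ℝ := kap * ∫ ξ in (-1:ℝ)..1, B ξ * Real.exp (-(u + ξ * a - w) ^ 2 / 2)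

theorem bet_int {B : ℝ → ℝ} (hB : Continuous B) : Integrable (bet B) := by
  have h1 : IntegrableOn B (Set.Ioc (-1:ℝ) 1) :=
    (hB.continuousOn.integrableOn_compact isCompact_Icc).mono_set Set.Ioc_subset_Icc_self
  exact (integrable_indicator_iff measurableSet_Ioc).2 h1

theorem bet_bd {B : ℝ → ℝ} (hB : Continuous B) : ∃ M : ℝ, 0 ≤ M ∧ ∀ x, |bet B x| ≤ M := by
  obtain ⟨M, hM⟩ := isCompact_Icc.exists_bound_of_continuousOn (s := Set.Icc (-1:ℝ) 1) hB.continuousOn
  refine ⟨max M 0, le_max_right _ _, fun x => ?_⟩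
  unfold bet
  by_cases hx : x ∈ Set.Ioc (-1:ℝ) 1
  · rw [Set.indicator_of_mem hx]
    exact (hM x (Set.Ioc_subset_Icc_self hx)).trans (le_max_left _ _)
  · rw [Set.indicator_of_notMem hx, abs_zero]; exact le_max_right _ _

theorem bet_mul (B g : ℝ → ℝ) :
    ∫ ξ in (-1:ℝ)..1, B ξ * g ξ = ∫ ξ, bet B ξ * g ξ := by
  rw [intervalIntegral.integral_of_le (by norm_num), ← integral_indicator measurableSet_Ioc]
  congr 1
  funext x
  unfold bet
  by_cases hx : x ∈ Set.Ioc (-1:ℝ) 1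
  · rw [Set.indicator_of_mem hx, Set.indicator_of_mem hx]
  · rw [Set.indicator_of_notMem hx, Set.indicator_of_notMem hx, zero_mul]

theorem bet_sq (B : ℝ → ℝ) (ξ : ℝ) : bet B ξ ^ 2 = bet (fun x => B x ^ 2) ξ := by
  unfold bet
  by_cases hx : ξ ∈ Set.Ioc (-1:ℝ) 1
  · rw [Set.indicator_of_mem hx, Set.indicator_of_mem hx]
  · rw [Set.indicator_of_notMem hx, Set.indicator_of_notMem hx]; norm_num

theorem GG_eq (B : ℝ → ℝ) (a u w : ℝ) :
    GG B a u w = kap * ∫ ξ, bet B ξ * Real.exp (-(u + ξ * a - w) ^ 2 / 2) := by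
  rw [GG, bet_mul B (fun ξ => Real.exp (-(u + ξ * a - w) ^ 2 / 2))]

theorem GG_cont {B : ℝ → ℝ} (hB : Continuous B) (a u : ℝ) : Continuous (fun w => GG B a u w) := by
  unfold GG
  apply continuous_const.mul
  apply intervalIntegral.continuous_parametric_intervalIntegral_of_continuous'
  show Continuous (fun p : ℝ × ℝ => B p.2 * Real.exp (-(u + p.2 * a - p.1) ^ 2 / 2))
  fun_prop

theorem GG_cont_u {B : ℝ → ℝ} (hB : Continuous B) (a w : ℝ) : Continuous (fun u => GG B a u w) := by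
  unfold GG
  apply continuous_const.mul
  apply intervalIntegral.continuous_parametric_intervalIntegral_of_continuous'
  show Continuous (fun p : ℝ × ℝ => B p.2 * Real.exp (-(p.1 + p.2 * a - w) ^ 2 / 2))
  fun_prop

theorem GG_shift (B : ℝ → ℝ) {a : ℝ} (ha : 0 < a) (u w s : ℝ) :
    GG B a u (w + s) = kap * ∫ ξ, bet B (ξ + s / a) * Real.exp (-(u + ξ * a - w) ^ 2 / 2) := by
  rw [GG_eq]
  congr 1
  rw [← integral_add_right_eq_self (μ := (volume : Measure ℝ))
    (fun ξ => bet B ξ * Real.exp (-(u + ξ * a - (w + s)) ^ 2 / 2)) (s / a)]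
  congr 1
  funext ξ
  show bet B (ξ + s / a) * Real.exp (-(u + (ξ + s / a) * a - (w + s)) ^ 2 / 2) = _
  congr 3
  have : (ξ + s / a) * a = ξ * a + s := by field_simp
  rw [this]; ring

theorem exp_bd (c : ℝ → ℝ) (x : ℝ) : ‖Real.exp (-(c x) ^ 2 / 2)‖ ≤ 1 := by
  rw [Real.norm_of_nonneg (Real.exp_pos _).le]
  apply Real.exp_le_one_iff.2
  have := sq_nonneg (c x)
  linarith

theorem mul_e_int {f : ℝ → ℝ} (hf : Integrable f) (a u w : ℝ) :
    Integrable (fun ξ => f ξ * Real.exp (-(u + ξ * a - w) ^ 2 / 2)) :=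
  hf.mul_bdd (c := 1) (Continuous.aestronglyMeasurable (by fun_prop))
    (Eventually.of_forall fun x => exp_bd (fun ξ => u + ξ * a - w) x)

/-- the translation difference -/
def gam (B : ℝ → ℝ) (h ξ : ℝ) : ℝ := bet B (ξ + h) - bet B ξ

theorem gam_int {B : ℝ → ℝ} (hB : Continuous B) (h : ℝ) : Integrable (gam B h) :=
  ((bet_int hB).comp_add_right h).sub (bet_int hB)

theorem gam_sq_int {B : ℝ → ℝ} (hB : Continuous B) (h : ℝ) : Integrable (fun ξ => gam B h ξ ^ 2) := by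
  obtain ⟨M, hM0, hM⟩ := bet_bd hB
  have : Integrable (fun ξ => gam B h ξ * gam B h ξ) := by
    refine (gam_int hB h).bdd_mul (c := 2 * M) (gam_int hB h).aestronglyMeasurable
      (Eventually.of_forall fun x => ?_)
    rw [Real.norm_eq_abs, gam]
    calc |bet B (x + h) - bet B x| ≤ |bet B (x + h)| + |bet B x| := abs_sub _ _
      _ ≤ 2 * M := by linarith [hM (x + h), hM x]
  exact this.congr (Eventually.of_forall fun x => (sq _).symm)

theorem D_bound {B : ℝ → ℝ} (hB : Continuous B) {a : ℝ} (ha : 0 < a) (u w s : ℝ) :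
    (GG B a u (w + s) - GG B a u w) ^ 2 ≤
      1 / a * (kap * ∫ ξ, gam B (s / a) ξ ^ 2 * Real.exp (-(u + ξ * a - w) ^ 2 / 2)) := by
  obtain ⟨M, hM0, hM⟩ := bet_bd hB
  have e : GG B a u (w + s) - GG B a u w =
      kap * ∫ ξ, gam B (s / a) ξ * Real.exp (-(u + ξ * a - w) ^ 2 / 2) := by
    rw [GG_shift B ha, GG_eq, ← mul_sub, ← integral_sub (mul_e_int ((bet_int hB).comp_add_right _) a u w)
      (mul_e_int (bet_int hB) a u w)]
    congr 2
    funext ξ
    rw [gam, sub_mul]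
  rw [e]
  refine jensen ha u w (gam B (s / a)) (2 * M) (gam_int hB _) fun x => ?_
  rw [gam]
  calc |bet B (x + s / a) - bet B x| ≤ |bet B (x + s / a)| + |bet B x| := abs_sub _ _
    _ ≤ 2 * M := by linarith [hM (x + s / a), hM x]

theorem gam_supp {B : ℝ → ℝ} {h : ℝ} (h0 : 0 ≤ h) (h1 : h ≤ 1) {ξ : ℝ} (hξ : gam B h ξ ≠ 0) : |ξ| ≤ 2 := by
  by_contra hc
  push Not at hc
  apply hξ
  unfold gam bet
  rw [Set.indicator_of_notMem, Set.indicator_of_notMem, sub_zero]
  · intro hm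
    rw [lt_abs] at hc
    rcases hc with hc | hc <;> linarith [hm.1, hm.2]
  · intro hm
    rw [lt_abs] at hc
    rcases hc with hc | hc <;> linarith [hm.1, hm.2]

/-- the sum of the squares of the differences -/
theorem E_sum {B : ℝ → ℝ} (hB : Continuous B) {a : ℝ} (ha : 0 < a) {u : ℝ} (hu : 0 ≤ u) (X : ℕ) {s : ℝ}
    (hs0 : 0 ≤ s / a) (hs1 : s / a ≤ 1) {C : ℝ} (hC : 0 ≤ C)
    (hlin : ∀ (v : ℝ), ∑ n ∈ Finset.Icc 1 X, vonMangoldt n ^ 2 / (n:ℝ) *
      (kap * Real.exp (-(v - Real.log n) ^ 2 / 2)) ≤ C * (1 + |v|)) :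
    ∑ n ∈ Finset.Icc 1 X, vonMangoldt n ^ 2 / (n:ℝ) *
      (GG B a u (Real.log n + s) - GG B a u (Real.log n)) ^ 2 ≤
      1 / a * (C * (1 + u + 2 * a)) * ∫ ξ, gam B (s / a) ξ ^ 2 := by
  have hint : ∀ n ∈ Finset.Icc 1 X, Integrable (fun ξ => (vonMangoldt n ^ 2 / (n:ℝ) * kap) *
      (gam B (s / a) ξ ^ 2 * Real.exp (-(u + ξ * a - Real.log n) ^ 2 / 2))) := fun n _ =>
    (mul_e_int (gam_sq_int hB _) a u _).const_mul _
  calc ∑ n ∈ Finset.Icc 1 X, vonMangoldt n ^ 2 / (n:ℝ) *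
        (GG B a u (Real.log n + s) - GG B a u (Real.log n)) ^ 2
      ≤ ∑ n ∈ Finset.Icc 1 X, 1 / a * ∫ ξ, (vonMangoldt n ^ 2 / (n:ℝ) * kap) *
          (gam B (s / a) ξ ^ 2 * Real.exp (-(u + ξ * a - Real.log n) ^ 2 / 2)) := by
        apply Finset.sum_le_sum
        intro n _
        have h1 := D_bound hB ha u (Real.log n) s
        have h2 : 0 ≤ vonMangoldt n ^ 2 / (n:ℝ) := by positivity
        calc _ ≤ vonMangoldt n ^ 2 / (n:ℝ) * (1 / a * (kap * ∫ ξ, gam B (s / a) ξ ^ 2 *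
              Real.exp (-(u + ξ * a - Real.log n) ^ 2 / 2))) := mul_le_mul_of_nonneg_left h1 h2
          _ = _ := by rw [integral_const_mul]; ring
    _ = 1 / a * ∫ ξ, ∑ n ∈ Finset.Icc 1 X, (vonMangoldt n ^ 2 / (n:ℝ) * kap) *
          (gam B (s / a) ξ ^ 2 * Real.exp (-(u + ξ * a - Real.log n) ^ 2 / 2)) := by
        rw [← Finset.mul_sum, integral_finsetSum _ hint]
    _ ≤ 1 / a * ∫ ξ, (C * (1 + u + 2 * a)) * gam B (s / a) ξ ^ 2 := by
        apply mul_le_mul_of_nonneg_left _ (by positivity)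
        apply integral_mono (integrable_finsetSum _ hint) ((gam_sq_int hB _).const_mul _)
        intro ξ
        show ∑ n ∈ Finset.Icc 1 X, (vonMangoldt n ^ 2 / (n:ℝ) * kap) *
          (gam B (s / a) ξ ^ 2 * Real.exp (-(u + ξ * a - Real.log n) ^ 2 / 2)) ≤
          (C * (1 + u + 2 * a)) * gam B (s / a) ξ ^ 2
        by_cases hξ : gam B (s / a) ξ = 0
        · simp [hξ]
        · have hx := gam_supp hs0 hs1 hξ
          have h3 : |u + ξ * a| ≤ u + 2 * a := by
            calc |u + ξ * a| ≤ |u| + |ξ * a| := abs_add_le _ _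
              _ = u + |ξ| * a := by rw [abs_of_nonneg hu, abs_mul, abs_of_pos ha]
              _ ≤ u + 2 * a := by nlinarith
          have h4 := hlin (u + ξ * a)
          calc ∑ n ∈ Finset.Icc 1 X, (vonMangoldt n ^ 2 / (n:ℝ) * kap) *
                (gam B (s / a) ξ ^ 2 * Real.exp (-(u + ξ * a - Real.log n) ^ 2 / 2))
              = gam B (s / a) ξ ^ 2 * ∑ n ∈ Finset.Icc 1 X, vonMangoldt n ^ 2 / (n:ℝ) *
                (kap * Real.exp (-(u + ξ * a - Real.log n) ^ 2 / 2)) := by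
                rw [Finset.mul_sum]
                apply Finset.sum_congr rfl
                intro n _
                ring
            _ ≤ gam B (s / a) ξ ^ 2 * (C * (1 + |u + ξ * a|)) :=
                mul_le_mul_of_nonneg_left h4 (sq_nonneg _)
            _ ≤ gam B (s / a) ξ ^ 2 * (C * (1 + u + 2 * a)) := by
                apply mul_le_mul_of_nonneg_left _ (sq_nonneg _)
                apply mul_le_mul_of_nonneg_left _ hC
                linarith
            _ = _ := mul_comm _ _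
    _ = _ := by rw [integral_const_mul]; ring

/-- continuity of the translations -/
theorem gam_small {B : ℝ → ℝ} (hB : Continuous B) {δ : ℝ} (hδ : 0 < δ) :
    ∃ h0 : ℝ, 0 < h0 ∧ h0 ≤ 1 ∧ ∀ h : ℝ, 0 ≤ h → h ≤ h0 → ∫ ξ, gam B h ξ ^ 2 ≤ δ := by
  obtain ⟨M, hM0, hM⟩ := bet_bd hB
  have ht : Tendsto (fun h => ∫ ξ, gam B h ξ ^ 2) (𝓝[Set.Icc 0 1] 0) (𝓝 (∫ _ξ : ℝ, (0:ℝ))) := by
    apply tendsto_integral_filter_of_dominated_convergence
      (fun ξ => (Set.Icc (-2:ℝ) 2).indicator (fun _ => (2 * M) ^ 2) ξ)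
    · exact Eventually.of_forall fun h => (gam_sq_int hB h).aestronglyMeasurable
    · filter_upwards [self_mem_nhdsWithin] with h hh
      refine Eventually.of_forall fun ξ => ?_
      rw [Real.norm_of_nonneg (sq_nonneg _)]
      by_cases hg : gam B h ξ = 0
      · rw [hg]
        simp only [ne_eq, OfNat.ofNat_ne_zero, not_false_eq_true, zero_pow]
        exact Set.indicator_nonneg (fun _ _ => by positivity) _
      · have h2 := gam_supp hh.1 hh.2 hg
        rw [Set.indicator_of_mem (Set.mem_Icc.2 (abs_le.1 h2))]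
        have h3 : |gam B h ξ| ≤ 2 * M := by
          rw [gam]
          calc |bet B (ξ + h) - bet B ξ| ≤ |bet B (ξ + h)| + |bet B ξ| := abs_sub _ _
            _ ≤ 2 * M := by linarith [hM (ξ + h), hM ξ]
        calc gam B h ξ ^ 2 = |gam B h ξ| ^ 2 := (sq_abs _).symm
          _ ≤ (2 * M) ^ 2 := by gcongr
    · exact (integrable_indicator_iff measurableSet_Icc).2 (by
        refine integrableOn_const ?_
        rw [Real.volume_Icc]; exact ENNReal.ofReal_ne_top)
    · have hnull : ∀ᵐ ξ : ℝ, ξ ∉ ({-1, 1} : Set ℝ) := by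
        rw [ae_iff]
        simp only [not_not, Set.ofPred_mem_eq]
        exact (Set.toFinite _).measure_zero _
      filter_upwards [hnull] with ξ hξ
      rw [Set.mem_insert_iff, Set.mem_singleton_iff, not_or] at hξ
      have hcont : ContinuousAt (bet B) ξ := by
        rcases lt_trichotomy ξ (-1) with h | h | h
        · have : bet B =ᶠ[𝓝 ξ] fun _ => 0 := by
            filter_upwards [isOpen_Iio.mem_nhds h] with x hx
            have hx' : x < -1 := hx
            exact Set.indicator_of_notMem (s := Set.Ioc (-1:ℝ) 1) (fun hm => by linarith [hm.1]) B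
          exact continuousAt_const.congr this.symm
        · exact absurd h hξ.1
        · rcases lt_trichotomy ξ 1 with h' | h' | h'
          · have : bet B =ᶠ[𝓝 ξ] B := by
              filter_upwards [isOpen_Ioo.mem_nhds (⟨h, h'⟩ : ξ ∈ Set.Ioo (-1:ℝ) 1)] with x hx
              have hx' : x ∈ Set.Ioc (-1:ℝ) 1 := Set.mem_Ioc.2 ⟨hx.1, hx.2.le⟩
              exact Set.indicator_of_mem hx' B
            exact hB.continuousAt.congr this.symm
          · exact absurd h' hξ.2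
          · have : bet B =ᶠ[𝓝 ξ] fun _ => 0 := by
              filter_upwards [isOpen_Ioi.mem_nhds h'] with x hx
              have hx' : 1 < x := hx
              exact Set.indicator_of_notMem (s := Set.Ioc (-1:ℝ) 1) (fun hm => by linarith [hm.2]) B
            exact continuousAt_const.congr this.symm
      have h1 : Tendsto (fun h : ℝ => bet B (ξ + h)) (𝓝 0) (𝓝 (bet B ξ)) := by
        have h2 : Tendsto (fun h : ℝ => ξ + h) (𝓝 0) (𝓝 ξ) := by
          have : Tendsto (fun h : ℝ => ξ + h) (𝓝 0) (𝓝 (ξ + 0)) := (continuous_const.add continuous_id).tendsto 0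
          rwa [add_zero] at this
        exact hcont.tendsto.comp h2
      have h3 : Tendsto (fun h : ℝ => gam B h ξ ^ 2) (𝓝 0) (𝓝 ((bet B ξ - bet B ξ) ^ 2)) :=
        (h1.sub_const _).pow 2
      rw [sub_self, zero_pow (by norm_num)] at h3
      exact h3.mono_left nhdsWithin_le_nhds
  rw [integral_zero] at ht
  have h1 : ∀ᶠ h in 𝓝[Set.Icc (0:ℝ) 1] 0, ∫ ξ, gam B h ξ ^ 2 < δ := ht.eventually_lt_const hδ
  rw [eventually_nhdsWithin_iff, Metric.eventually_nhds_iff] at h1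
  obtain ⟨r, hr, h2⟩ := h1
  refine ⟨min (r / 2) 1, lt_min (by linarith) one_pos, min_le_right _ _, fun h hh0 hh1 => (h2 ?_ ⟨hh0, hh1.trans
    (min_le_right _ _)⟩).le⟩
  rw [Real.dist_eq, sub_zero, abs_of_nonneg hh0]
  have := hh1.trans (min_le_left _ _)
  linarith

/-- the main term: average over a window -/
theorem M_sum {B : ℝ → ℝ} (hB : Continuous B) (hev : ∀ ξ, B (-ξ) = B ξ) {a : ℝ} (ha : 0 < a) {u : ℝ}
    (hu : a ≤ u) (X : ℕ) {ℓ : ℝ} (hℓ : 0 ≤ ℓ) :
    ∑ n ∈ Finset.Icc 1 X, vonMangoldt n ^ 2 / (n:ℝ) * ∫ s in (0:ℝ)..ℓ, GG B a u (Real.log n + s) ^ 2 ≤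
      1 / a * ((ℓ + 8) * ((u + m1) * ∫ ξ in (-1:ℝ)..1, B ξ ^ 2)) := by
  obtain ⟨M, hM0, hM⟩ := bet_bd hB
  have hB2 : Continuous (fun x => B x ^ 2) := hB.pow 2
  -- the pointwise bound
  have hj : ∀ w : ℝ, GG B a u w ^ 2 ≤
      1 / a * ∫ ξ in (-1:ℝ)..1, B ξ ^ 2 * (kap * Real.exp (-(u + ξ * a - w) ^ 2 / 2)) := by
    intro w
    have h1 := jensen ha u w (bet B) M (bet_int hB) hM
    rw [← GG_eq] at h1
    refine h1.trans (le_of_eq ?_)
    congr 1
    have h2 : ∫ ξ in (-1:ℝ)..1, B ξ ^ 2 * (kap * Real.exp (-(u + ξ * a - w) ^ 2 / 2)) =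
        kap * ∫ ξ in (-1:ℝ)..1, B ξ ^ 2 * Real.exp (-(u + ξ * a - w) ^ 2 / 2) := by
      rw [← intervalIntegral.integral_const_mul]
      congr 1; funext ξ; ring
    rw [h2, bet_mul (fun x => B x ^ 2) (fun ξ => Real.exp (-(u + ξ * a - w) ^ 2 / 2))]
    congr 2
    funext ξ
    rw [bet_sq]
  have hterm : ∀ n : ℕ, ∫ s in (0:ℝ)..ℓ, GG B a u (Real.log n + s) ^ 2 ≤
      1 / a * ∫ ξ in (-1:ℝ)..1, B ξ ^ 2 *
        ∫ s in (0:ℝ)..ℓ, kap * Real.exp (-(u + ξ * a - Real.log n - s) ^ 2 / 2) := by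
    intro n
    calc ∫ s in (0:ℝ)..ℓ, GG B a u (Real.log n + s) ^ 2
        ≤ ∫ s in (0:ℝ)..ℓ, 1 / a * ∫ ξ in (-1:ℝ)..1,
            B ξ ^ 2 * (kap * Real.exp (-(u + ξ * a - (Real.log n + s)) ^ 2 / 2)) := by
          apply intervalIntegral.integral_mono_on hℓ
          · exact Continuous.intervalIntegrable
              (((GG_cont hB a u).comp (continuous_const.add continuous_id)).pow 2) _ _
          · apply Continuous.intervalIntegrable
            apply continuous_const.mul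
            apply intervalIntegral.continuous_parametric_intervalIntegral_of_continuous'
            show Continuous (fun p : ℝ × ℝ => B p.2 ^ 2 *
              (kap * Real.exp (-(u + p.2 * a - (Real.log n + p.1)) ^ 2 / 2)))
            fun_prop
          · intro s _
            exact hj _
      _ = 1 / a * ∫ s in (0:ℝ)..ℓ, ∫ ξ in (-1:ℝ)..1,
            B ξ ^ 2 * (kap * Real.exp (-(u + ξ * a - (Real.log n + s)) ^ 2 / 2)) := by
          rw [intervalIntegral.integral_const_mul]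
      _ = 1 / a * ∫ ξ in (-1:ℝ)..1, ∫ s in (0:ℝ)..ℓ,
            B ξ ^ 2 * (kap * Real.exp (-(u + ξ * a - (Real.log n + s)) ^ 2 / 2)) := by
          congr 1
          apply intervalIntegral_intervalIntegral_swap
          have hc : Continuous (Function.uncurry (fun s ξ : ℝ =>
              B ξ ^ 2 * (kap * Real.exp (-(u + ξ * a - (Real.log n + s)) ^ 2 / 2)))) := by
            show Continuous (fun p : ℝ × ℝ => B p.2 ^ 2 *
              (kap * Real.exp (-(u + p.2 * a - (Real.log n + p.1)) ^ 2 / 2)))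
            fun_prop
          refine (hc.continuousOn.integrableOn_compact (isCompact_uIcc.prod isCompact_uIcc)).mono_set
            (Set.prod_mono Set.uIoc_subset_uIcc Set.uIoc_subset_uIcc)
      _ = _ := by
          congr 2
          funext ξ
          rw [← intervalIntegral.integral_const_mul]
          congr 1
          funext s
          rw [sub_add_eq_sub_sub]
  have hcn : ∀ n : ℕ, Continuous (fun ξ : ℝ => B ξ ^ 2 *
      ∫ s in (0:ℝ)..ℓ, kap * Real.exp (-(u + ξ * a - Real.log n - s) ^ 2 / 2)) := by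
    intro n
    apply hB2.mul
    apply intervalIntegral.continuous_parametric_intervalIntegral_of_continuous'
    show Continuous (fun p : ℝ × ℝ => kap * Real.exp (-(u + p.1 * a - Real.log n - p.2) ^ 2 / 2))
    fun_prop
  have hodd : ∫ ξ in (-1:ℝ)..1, ξ * B ξ ^ 2 = 0 := by
    have h := intervalIntegral.integral_comp_neg (a := -1) (b := 1) (fun ξ : ℝ => ξ * B ξ ^ 2)
    rw [neg_neg] at h
    have h2 : ∫ x in (-1:ℝ)..1, -x * B (-x) ^ 2 = -∫ ξ in (-1:ℝ)..1, ξ * B ξ ^ 2 := by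
      rw [← intervalIntegral.integral_neg]
      congr 1; funext x; rw [hev]; ring
    rw [h2] at h
    linarith
  calc ∑ n ∈ Finset.Icc 1 X, vonMangoldt n ^ 2 / (n:ℝ) * ∫ s in (0:ℝ)..ℓ, GG B a u (Real.log n + s) ^ 2
      ≤ ∑ n ∈ Finset.Icc 1 X, 1 / a * ∫ ξ in (-1:ℝ)..1, vonMangoldt n ^ 2 / (n:ℝ) * (B ξ ^ 2 *
        ∫ s in (0:ℝ)..ℓ, kap * Real.exp (-(u + ξ * a - Real.log n - s) ^ 2 / 2)) := by
        apply Finset.sum_le_sum
        intro n _
        have h2 : 0 ≤ vonMangoldt n ^ 2 / (n:ℝ) := by positivity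
        refine (mul_le_mul_of_nonneg_left (hterm n) h2).trans (le_of_eq ?_)
        rw [intervalIntegral.integral_const_mul]; ring
    _ = 1 / a * ∫ ξ in (-1:ℝ)..1, ∑ n ∈ Finset.Icc 1 X, vonMangoldt n ^ 2 / (n:ℝ) * (B ξ ^ 2 *
        ∫ s in (0:ℝ)..ℓ, kap * Real.exp (-(u + ξ * a - Real.log n - s) ^ 2 / 2)) := by
        rw [← Finset.mul_sum, intervalIntegral.integral_finsetSum]
        intro n _
        exact ((hcn n).const_mul _).intervalIntegrable _ _
    _ ≤ 1 / a * ∫ ξ in (-1:ℝ)..1, (ℓ + 8) * ((u + m1) * B ξ ^ 2 + a * (ξ * B ξ ^ 2)) := by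
        apply mul_le_mul_of_nonneg_left _ (by positivity)
        apply intervalIntegral.integral_mono_on (by norm_num)
        · apply Continuous.intervalIntegrable
          exact continuous_finsetSum _ fun n _ => (hcn n).const_mul _
        · apply Continuous.intervalIntegrable
          fun_prop
        · intro ξ hξ
          have h1 := gauss_sum X (u + ξ * a) ℓ hℓ
          have h2 : |u + ξ * a| = u + ξ * a := by
            apply abs_of_nonneg
            nlinarith [hξ.1]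
          rw [h2] at h1
          calc ∑ n ∈ Finset.Icc 1 X, vonMangoldt n ^ 2 / (n:ℝ) * (B ξ ^ 2 *
                ∫ s in (0:ℝ)..ℓ, kap * Real.exp (-(u + ξ * a - Real.log n - s) ^ 2 / 2))
              = B ξ ^ 2 * ∑ n ∈ Finset.Icc 1 X, vonMangoldt n ^ 2 / (n:ℝ) *
                ∫ s in (0:ℝ)..ℓ, kap * Real.exp (-(u + ξ * a - Real.log n - s) ^ 2 / 2) := by
                rw [Finset.mul_sum]
                apply Finset.sum_congr rfl
                intro n _; ring
            _ ≤ B ξ ^ 2 * ((ℓ + 8) * (u + ξ * a + m1)) := mul_le_mul_of_nonneg_left h1 (sq_nonneg _)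
            _ = _ := by ring
    _ = _ := by
        rw [intervalIntegral.integral_const_mul, intervalIntegral.integral_add, intervalIntegral.integral_const_mul,
          intervalIntegral.integral_const_mul, hodd, mul_zero, add_zero]
        · apply Continuous.intervalIntegrable; fun_prop
        · apply Continuous.intervalIntegrable; fun_prop

/-- the bound for one `u` -/
theorem F_bound {B : ℝ → ℝ} (hB : Continuous B) (hev : ∀ ξ, B (-ξ) = B ξ) {a : ℝ} (ha : 0 < a) {u : ℝ}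
    (hu : a ≤ u) (X : ℕ) {ℓ θ δ : ℝ} (hℓ : 0 < ℓ) (hθ : 0 < θ) (hla : ℓ / a ≤ 1)
    (hsm : ∀ h : ℝ, 0 ≤ h → h ≤ ℓ / a → ∫ ξ, gam B h ξ ^ 2 ≤ δ) {C : ℝ} (hC : 0 ≤ C)
    (hlin : ∀ (v : ℝ), ∑ n ∈ Finset.Icc 1 X, vonMangoldt n ^ 2 / (n:ℝ) *
      (kap * Real.exp (-(v - Real.log n) ^ 2 / 2)) ≤ C * (1 + |v|)) :
    ∑ n ∈ Finset.Icc 1 X, vonMangoldt n ^ 2 / (n:ℝ) * GG B a u (Real.log n) ^ 2 ≤
      (1 + θ) * (1 / a * ((1 + 8 / ℓ) * ((u + m1) * ∫ ξ in (-1:ℝ)..1, B ξ ^ 2))) +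
        (1 + 1 / θ) * (1 / a * (C * (1 + u + 2 * a)) * δ) := by
  set F := ∑ n ∈ Finset.Icc 1 X, vonMangoldt n ^ 2 / (n:ℝ) * GG B a u (Real.log n) ^ 2 with hF
  set E := 1 / a * (C * (1 + u + 2 * a)) * δ with hE
  have hu0 : 0 ≤ u := ha.le.trans hu
  have hpt : ∀ s ∈ Set.Icc (0:ℝ) ℓ, F ≤ (1 + θ) * (∑ n ∈ Finset.Icc 1 X, vonMangoldt n ^ 2 / (n:ℝ) *
      GG B a u (Real.log n + s) ^ 2) + (1 + 1 / θ) * E := by
    intro s hs
    have hs0 : 0 ≤ s / a := div_nonneg hs.1 ha.le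
    have hs1 : s / a ≤ ℓ / a := div_le_div_of_nonneg_right hs.2 ha.le
    have h1 := E_sum hB ha hu0 X hs0 (hs1.trans hla) hC hlin
    have h2 : 1 / a * (C * (1 + u + 2 * a)) * ∫ ξ, gam B (s / a) ξ ^ 2 ≤ E := by
      rw [hE]
      exact mul_le_mul_of_nonneg_left (hsm _ hs0 hs1) (by positivity)
    have h3 : F ≤ (1 + θ) * (∑ n ∈ Finset.Icc 1 X, vonMangoldt n ^ 2 / (n:ℝ) *
        GG B a u (Real.log n + s) ^ 2) + (1 + 1 / θ) * (∑ n ∈ Finset.Icc 1 X, vonMangoldt n ^ 2 / (n:ℝ) *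
        (GG B a u (Real.log n + s) - GG B a u (Real.log n)) ^ 2) := by
      rw [hF, Finset.mul_sum, Finset.mul_sum, ← Finset.sum_add_distrib]
      apply Finset.sum_le_sum
      intro n _
      have h4 : 0 ≤ vonMangoldt n ^ 2 / (n:ℝ) := by positivity
      set y := GG B a u (Real.log n + s)
      set x := GG B a u (Real.log n)
      have h5 : x ^ 2 ≤ (1 + θ) * y ^ 2 + (1 + 1 / θ) * (y - x) ^ 2 := by
        have h6 : (1 + θ) * y ^ 2 + (1 + 1 / θ) * (y - x) ^ 2 - x ^ 2 = (θ * y + (y - x)) ^ 2 / θ := by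
          field_simp; ring
        have h7 : 0 ≤ (θ * y + (y - x)) ^ 2 / θ := by positivity
        linarith
      calc vonMangoldt n ^ 2 / (n:ℝ) * x ^ 2
          ≤ vonMangoldt n ^ 2 / (n:ℝ) * ((1 + θ) * y ^ 2 + (1 + 1 / θ) * (y - x) ^ 2) :=
            mul_le_mul_of_nonneg_left h5 h4
        _ = _ := by ring
    have h8 : 0 ≤ 1 + 1 / θ := by positivity
    calc F ≤ _ := h3
      _ ≤ _ := by
        have := mul_le_mul_of_nonneg_left (h1.trans h2) h8
        linarith
  have hcG : ∀ n : ℕ, Continuous (fun s => vonMangoldt n ^ 2 / (n:ℝ) * GG B a u (Real.log n + s) ^ 2) := fun n =>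
    (((GG_cont hB a u).comp (continuous_const.add continuous_id)).pow 2).const_mul _
  have hcS : Continuous (fun s => ∑ n ∈ Finset.Icc 1 X, vonMangoldt n ^ 2 / (n:ℝ) *
      GG B a u (Real.log n + s) ^ 2) := continuous_finsetSum _ fun n _ => hcG n
  have hint : ∫ _s in (0:ℝ)..ℓ, F ≤ ∫ s in (0:ℝ)..ℓ, ((1 + θ) * (∑ n ∈ Finset.Icc 1 X, vonMangoldt n ^ 2 / (n:ℝ) *
      GG B a u (Real.log n + s) ^ 2) + (1 + 1 / θ) * E) := by
    apply intervalIntegral.integral_mono_on hℓ.le (by simp) _ hpt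
    exact ((hcS.const_mul _).add continuous_const).intervalIntegrable _ _
  rw [intervalIntegral.integral_const, intervalIntegral.integral_add ((hcS.const_mul _).intervalIntegrable _ _)
    (by simp), intervalIntegral.integral_const_mul, intervalIntegral.integral_const, sub_zero, smul_eq_mul,
    smul_eq_mul, intervalIntegral.integral_finsetSum (fun n _ => (hcG n).intervalIntegrable _ _)] at hint
  have hM := M_sum hB hev ha hu X hℓ.le
  have hsum : ∑ n ∈ Finset.Icc 1 X, ∫ s in (0:ℝ)..ℓ, vonMangoldt n ^ 2 / (n:ℝ) * GG B a u (Real.log n + s) ^ 2 =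
      ∑ n ∈ Finset.Icc 1 X, vonMangoldt n ^ 2 / (n:ℝ) * ∫ s in (0:ℝ)..ℓ, GG B a u (Real.log n + s) ^ 2 := by
    apply Finset.sum_congr rfl
    intro n _
    rw [intervalIntegral.integral_const_mul]
  rw [hsum] at hint
  set IB := ∫ ξ in (-1:ℝ)..1, B ξ ^ 2 with hIB
  have h9 : ℓ * F ≤ (1 + θ) * (1 / a * ((ℓ + 8) * ((u + m1) * IB))) + ℓ * ((1 + 1 / θ) * E) := by
    have := mul_le_mul_of_nonneg_left hM (show (0:ℝ) ≤ 1 + θ by linarith)
    linarith
  have h10 : ℓ * ((1 + θ) * (1 / a * ((1 + 8 / ℓ) * ((u + m1) * IB))) + (1 + 1 / θ) * E) =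
      (1 + θ) * (1 / a * ((ℓ + 8) * ((u + m1) * IB))) + ℓ * ((1 + 1 / θ) * E) := by
    field_simp
  rw [← h10] at h9
  exact le_of_mul_le_mul_left h9 hℓ

end

end Pool.Agent.Y240.SW
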