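import Pool.Agent.Y745.SW.DefsA
import Pool.Agent.Y240.SW.DF3

set_option autoImplicit false

/-!
SW project (helper745, MP_6bc78b_nt), job DF: the sum of the squares of the coefficients of the prime sums.
-/

namespace Pool.Agent.Y240.SW

open ArithmeticFunction MeasureTheory Filter Topology

noncomputable section

theorem Gp_eq (B : ℝ → ℝ) {a u : ℝ} (ha : 0 ≤ a) (hu : a ≤ u) (y : ℝ) :
    Pool.Agent.Y745.SW.Gp B a u y = GG B a u y := by
  unfold Pool.Agent.Y745.SW.Gp GG kap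
  congr 1
  apply intervalIntegral.integral_congr
  intro ξ hξ
  rw [Set.uIcc_of_le (by norm_num)] at hξ
  show (if 0 ≤ u + ξ * a then B ξ * Real.exp (-(u + ξ * a - y) ^ 2 / 2) else 0) = _
  rw [if_pos]
  nlinarith [hξ.1]

theorem aux1 {η' IB m τ L θ u ε : ℝ} (hIB0 : 0 ≤ IB) (hm1 : 0 ≤ m) (hτ : 0 < τ) (hL0 : 0 < L)
    (hθ0 : 0 < θ) (hθ1 : θ ≤ 1) (hθ2 : θ * (9 * (IB + 1)) ≤ η' * τ) (hmL : 12 * m * IB ≤ L * (τ * η'))
    (hu0 : 0 ≤ u) (huL : u ≤ L) (y : ℝ) (hudef : u = (1 - ε) * L * y) :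
    (1 + θ) * (1 / (τ * L) * ((1 + θ) * ((u + m) * IB))) ≤ (1 - ε) / τ * IB * y + η' / 3 + η' / 3 := by
  have ha : 0 < τ * L := by positivity
  have h2 : (1 + θ) * (1 + θ) ≤ 1 + 3 * θ := by nlinarith
  have h3 : (1 + θ) * (1 / (τ * L) * ((1 + θ) * ((u + m) * IB))) =
      ((1 + θ) * (1 + θ)) * ((u + m) * IB / (τ * L)) := by ring
  have h4 : 0 ≤ (u + m) * IB / (τ * L) := by positivity
  have h5 : u * IB / (τ * L) = (1 - ε) / τ * IB * y := by rw [hudef]; field_simp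
  have h6 : u * IB / (τ * L) ≤ IB / τ := by
    rw [div_le_div_iff₀ ha hτ]
    nlinarith [mul_le_mul_of_nonneg_right huL (mul_nonneg hIB0 hτ.le)]
  have h7 : θ * (IB / τ) ≤ η' / 9 := by
    rw [← mul_div_assoc, div_le_iff₀ hτ]
    nlinarith
  have h8 : m * IB / (τ * L) ≤ η' / 12 := by
    rw [div_le_iff₀ ha]
    nlinarith
  have h9 : 0 ≤ m * IB / (τ * L) := by positivity
  have h10 : θ * (u * IB / (τ * L)) ≤ θ * (IB / τ) := mul_le_mul_of_nonneg_left h6 hθ0.le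
  have h11 : (1 + 3 * θ) * (m * IB / (τ * L)) ≤ 4 * (m * IB / (τ * L)) :=
    mul_le_mul_of_nonneg_right (by linarith) h9
  rw [h3]
  calc ((1 + θ) * (1 + θ)) * ((u + m) * IB / (τ * L))
      ≤ (1 + 3 * θ) * ((u + m) * IB / (τ * L)) := mul_le_mul_of_nonneg_right h2 h4
    _ = u * IB / (τ * L) + 3 * (θ * (u * IB / (τ * L))) + (1 + 3 * θ) * (m * IB / (τ * L)) := by ring
    _ ≤ (1 - ε) / τ * IB * y + 3 * (θ * (IB / τ)) + 4 * (m * IB / (τ * L)) := by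
        rw [h5] at h10 ⊢
        linarith
    _ ≤ _ := by linarith

theorem aux2 {η' C τ L θ δ q : ℝ} (hη' : 0 < η') (hC : 0 < C) (hτ : 0 < τ) (hL1 : 1 ≤ L) (hθ0 : 0 < θ)
    (hq : q ≤ 4 * L) (hδ : δ = η' * τ / (12 * C * (1 + 1 / θ))) :
    (1 + 1 / θ) * (1 / (τ * L) * (C * q) * δ) ≤ η' / 3 := by
  have hL0 : 0 < L := by linarith
  have hδ0 : 0 < δ := by rw [hδ]; positivity
  set k := 1 + 1 / θ with hk
  have hk0 : 0 < k := by positivity
  have h3 : k * (1 / (τ * L) * (C * q) * δ) ≤ k * (1 / (τ * L) * (C * (4 * L)) * δ) := by gcongr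
  refine h3.trans (le_of_eq ?_)
  rw [hδ]
  field_simp
  ring

theorem hbd_aux {B : ℝ → ℝ} (hB : Continuous B) (hev : ∀ ξ, B (-ξ) = B ξ) {IB τ ε η1 L η' C θ ℓ δ h0 : ℝ}
    (hIB : IB = ∫ ξ in (-1:ℝ)..1, B ξ ^ 2) (hIB0 : 0 ≤ IB) (hτ : 0 < τ) (hε : 0 < ε) (hε1 : ε < 1 / 2)
    (hη1 : 4 * τ ≤ η1) (hL1 : 1 ≤ L) (hη'0 : 0 < η') (hC : 0 < C) (hθ0 : 0 < θ) (hθ1 : θ ≤ 1)
    (hθ2 : θ * (9 * (IB + 1)) ≤ η' * τ) (hℓ : ℓ = 8 / θ) (hδ : δ = η' * τ / (12 * C * (1 + 1 / θ)))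
    (hh1 : h0 ≤ 1) (hsm : ∀ h : ℝ, 0 ≤ h → h ≤ h0 → ∫ ξ, gam B h ξ ^ 2 ≤ δ) (hla : ℓ / (τ * L) ≤ h0)
    (hmL : 12 * m1 * IB ≤ L * (τ * η')) (X : ℕ)
    (hlin : ∀ (v : ℝ), ∑ n ∈ Finset.Icc 1 X, vonMangoldt n ^ 2 / (n:ℝ) *
      (kap * Real.exp (-(v - Real.log n) ^ 2 / 2)) ≤ C * (1 + |v|)) {y : ℝ} (hy : y ∈ Set.Icc η1 1) :
    ∑ n ∈ Finset.Icc 1 X, vonMangoldt n ^ 2 / (n:ℝ) * GG B (τ * L) ((1 - ε) * L * y) (Real.log n) ^ 2 ≤
        (1 - ε) / τ * IB * y + η' := by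
  have hL0 : 0 < L := by linarith
  have ha : 0 < τ * L := by positivity
  have hm1 := m1_nonneg
  have hℓ0 : 0 < ℓ := by rw [hℓ]; positivity
  have hτ1 : τ ≤ 1 / 4 := by linarith [hy.1, hy.2]
  have hu : τ * L ≤ (1 - ε) * L * y := by
    have h1 : 2 * τ ≤ (1 - ε) * y := by nlinarith [hy.1]
    nlinarith
  have h1 := F_bound hB hev ha hu X hℓ0 hθ0 (hla.trans hh1)
    (fun h hh hh' => hsm h hh (hh'.trans hla)) hC.le hlin
  refine h1.trans ?_
  have e1 : 8 / ℓ = θ := by rw [hℓ]; field_simp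
  rw [e1, ← hIB]
  obtain ⟨u, hudef⟩ : ∃ u, u = (1 - ε) * L * y := ⟨_, rfl⟩
  rw [← hudef] at hu ⊢
  have hu0 : 0 ≤ u := ha.le.trans hu
  have huL : u ≤ L := by
    have h2 : (1 - ε) * y ≤ 1 := by nlinarith [hy.2, hy.1]
    calc u = L * ((1 - ε) * y) := by rw [hudef]; ring
      _ ≤ L * 1 := mul_le_mul_of_nonneg_left h2 hL0.le
      _ = L := mul_one L
  have p1 := aux1 (ε := ε) hIB0 hm1 hτ hL0 hθ0 hθ1 hθ2 hmL hu0 huL y hudef
  have h3 : 2 * (τ * L) ≤ 2 * L := by nlinarith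
  have p2 := aux2 hη'0 hC hτ hL1 hθ0 (by linarith : 1 + u + 2 * (τ * L) ≤ 4 * L) hδ
  linarith

theorem t_DF : Pool.Agent.Y745.SW.P_DF := by
  intro R hRc hR0 _
  obtain ⟨C, hC, hlin⟩ := gauss_lin
  refine ⟨1, one_pos, fun B hB hev ε τ η1 η hε hε1 hτ hτε hη1 hη1' hη => ?_⟩
  set IB := ∫ ξ in (-1:ℝ)..1, B ξ ^ 2 with hIB
  have hIB0 : 0 ≤ IB := intervalIntegral.integral_nonneg (by norm_num) fun x _ => sq_nonneg _
  set IR := ∫ x in (0:ℝ)..1, R x with hIR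
  have hIR0 : 0 ≤ IR := intervalIntegral.integral_nonneg (by norm_num) fun x hx => hR0 x hx
  set η' := η / (2 * (IR + 1)) with hη'
  have hη'0 : 0 < η' := by positivity
  set θ := min 1 (η' * τ / (9 * (IB + 1))) with hθ
  have hθ0 : 0 < θ := lt_min one_pos (by positivity)
  have hθ1 : θ ≤ 1 := min_le_left _ _
  have hθ2 : θ * (9 * (IB + 1)) ≤ η' * τ := by
    have h1 : θ ≤ η' * τ / (9 * (IB + 1)) := min_le_right _ _
    rwa [le_div_iff₀ (by positivity)] at h1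
  set ℓ := 8 / θ with hℓ
  have hℓ0 : 0 < ℓ := by positivity
  set δ := η' * τ / (12 * C * (1 + 1 / θ)) with hδ
  have hδ0 : 0 < δ := by positivity
  clear_value IB IR η' θ ℓ δ
  obtain ⟨h0, hh0, hh1, hsm⟩ := gam_small hB hδ0
  have hη10 : 0 < η1 := by linarith
  have hτ1 : τ ≤ 1 / 8 := by linarith
  have hm1 := m1_nonneg
  have hlog : ∀ᶠ T : ℝ in atTop, 1 + ℓ / (τ * h0) + 12 * m1 * IB / (τ * η') ≤ Real.log T :=
    Real.tendsto_log_atTop.eventually_ge_atTop _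
  filter_upwards [hlog] with T hT
  set L := Real.log T with hL
  have hq1 : 0 ≤ ℓ / (τ * h0) := by positivity
  have hq2 : 0 ≤ 12 * m1 * IB / (τ * η') := by positivity
  have hL1 : 1 ≤ L := by linarith
  have hL0 : 0 < L := by linarith
  have ha : 0 < τ * L := by positivity
  have hla : ℓ / (τ * L) ≤ h0 := by
    have h1 : ℓ / (τ * h0) ≤ L := by linarith
    rw [div_le_iff₀ (by positivity)] at h1
    rw [div_le_iff₀ ha]
    calc ℓ ≤ L * (τ * h0) := h1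
      _ = h0 * (τ * L) := by ring
  have hmL : 12 * m1 * IB ≤ L * (τ * η') := by
    have h1 : 12 * m1 * IB / (τ * η') ≤ L := by linarith
    rwa [div_le_iff₀ (by positivity)] at h1
  set X := Pool.Agent.Y745.SW.XT ε T with hX
  clear_value X L
  -- the bound for one `y`
  have hy : ∀ y ∈ Set.Icc η1 1, ∑ n ∈ Finset.Icc 1 X, (vonMangoldt n *
        ((Real.sqrt n)⁻¹ * Pool.Agent.Y745.SW.Gp B (τ * L) ((1 - ε) * L * y) (Real.log n))) ^ 2 =
      ∑ n ∈ Finset.Icc 1 X, vonMangoldt n ^ 2 / (n:ℝ) * GG B (τ * L) ((1 - ε) * L * y) (Real.log n) ^ 2 := by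
    intro y hy
    apply Finset.sum_congr rfl
    intro n hn
    have hu : τ * L ≤ (1 - ε) * L * y := by
      have h1 : 2 * τ ≤ (1 - ε) * y := by nlinarith [hy.1]
      nlinarith
    rw [Gp_eq B ha.le hu]
    have hn0 : (0:ℝ) ≤ n := Nat.cast_nonneg n
    rw [mul_pow, mul_pow, inv_pow, Real.sq_sqrt hn0]
    ring
  have hbd : ∀ y ∈ Set.Icc η1 1,
      ∑ n ∈ Finset.Icc 1 X, vonMangoldt n ^ 2 / (n:ℝ) * GG B (τ * L) ((1 - ε) * L * y) (Real.log n) ^ 2 ≤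
        (1 - ε) / τ * IB * y + η' := fun y hy =>
    hbd_aux hB hev hIB hIB0 hτ hε hε1 hη1 hL1 hη'0 hC hθ0 hθ1 hθ2 hℓ hδ hh1 hsm hla hmL X (hlin X) hy
  have hcont : Continuous (fun y : ℝ => ∑ n ∈ Finset.Icc 1 X, vonMangoldt n ^ 2 / (n:ℝ) *
      GG B (τ * L) ((1 - ε) * L * y) (Real.log n) ^ 2) := by
    apply continuous_finsetSum
    intro n _
    exact (((GG_cont_u hB (τ * L) (Real.log n)).comp (continuous_const.mul continuous_id)).pow 2).const_mul _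
  have e2 : ∫ y in η1..1, R y * ∑ n ∈ Finset.Icc 1 X, (vonMangoldt n *
        ((Real.sqrt n)⁻¹ * Pool.Agent.Y745.SW.Gp B (τ * L) ((1 - ε) * L * y) (Real.log n))) ^ 2 =
      ∫ y in η1..1, R y * ∑ n ∈ Finset.Icc 1 X, vonMangoldt n ^ 2 / (n:ℝ) *
        GG B (τ * L) ((1 - ε) * L * y) (Real.log n) ^ 2 := by
    apply intervalIntegral.integral_congr
    intro y hy'
    rw [Set.uIcc_of_le hη1'] at hy'
    show R y * _ = R y * _
    rw [hy y hy']
  rw [e2]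
  have h5 : ∫ y in η1..1, R y * ∑ n ∈ Finset.Icc 1 X, vonMangoldt n ^ 2 / (n:ℝ) *
        GG B (τ * L) ((1 - ε) * L * y) (Real.log n) ^ 2 ≤
      ∫ y in η1..1, ((1 - ε) / τ * IB * (y * R y) + η' * R y) := by
    apply intervalIntegral.integral_mono_on hη1'
    · exact (hRc.mul hcont).intervalIntegrable _ _
    · apply Continuous.intervalIntegrable; fun_prop
    · intro y hy'
      have h6 := hbd y hy'
      have h7 : 0 ≤ R y := hR0 y ⟨by linarith [hy'.1], hy'.2⟩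
      calc R y * ∑ n ∈ Finset.Icc 1 X, vonMangoldt n ^ 2 / (n:ℝ) *
            GG B (τ * L) ((1 - ε) * L * y) (Real.log n) ^ 2
          ≤ R y * ((1 - ε) / τ * IB * y + η') := mul_le_mul_of_nonneg_left h6 h7
        _ = _ := by ring
  have h8 : ∫ y in η1..1, ((1 - ε) / τ * IB * (y * R y) + η' * R y) ≤
      (1 - ε) / τ * IB * (∫ x in (0:ℝ)..1, x * R x) + η' * IR := by
    rw [intervalIntegral.integral_add (Continuous.intervalIntegrable (by fun_prop) _ _)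
      (Continuous.intervalIntegrable (by fun_prop) _ _), intervalIntegral.integral_const_mul,
      intervalIntegral.integral_const_mul]
    have hsub : ∀ f : ℝ → ℝ, Continuous f → (∀ x ∈ Set.Icc (0:ℝ) 1, 0 ≤ f x) →
        ∫ y in η1..1, f y ≤ ∫ y in (0:ℝ)..1, f y := by
      intro f hf hf0
      rw [← intervalIntegral.integral_add_adjacent_intervals (hf.intervalIntegrable 0 η1)
        (hf.intervalIntegrable η1 1)]
      have : 0 ≤ ∫ y in (0:ℝ)..η1, f y :=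
        intervalIntegral.integral_nonneg hη10.le fun x hx => hf0 x ⟨hx.1, hx.2.trans hη1'⟩
      linarith
    have h9 := hsub (fun y => y * R y) (by fun_prop) fun x hx => mul_nonneg hx.1 (hR0 x hx)
    have h10 := hsub R hRc hR0
    rw [← hIR] at h10
    have h11 : 0 ≤ (1 - ε) / τ * IB := by
      have : 0 ≤ 1 - ε := by linarith
      positivity
    have := mul_le_mul_of_nonneg_left h9 h11
    have := mul_le_mul_of_nonneg_left h10 hη'0.le
    linarith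
  have h12 : 2 * (η' * IR) ≤ η := by
    rw [hη']
    have h13 : 2 * (η / (2 * (IR + 1)) * IR) = η * (IR / (IR + 1)) := by field_simp
    rw [h13]
    have h14 : IR / (IR + 1) ≤ 1 := by
      rw [div_le_one (by linarith)]; linarith
    nlinarith
  calc 2 * ∫ y in η1..1, R y * ∑ n ∈ Finset.Icc 1 X, vonMangoldt n ^ 2 / (n:ℝ) *
        GG B (τ * L) ((1 - ε) * L * y) (Real.log n) ^ 2
      ≤ 2 * ((1 - ε) / τ * IB * (∫ x in (0:ℝ)..1, x * R x) + η' * IR) := by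
        have := h5.trans h8
        linarith
    _ = 2 * (1 - ε) / τ * (∫ x in (0:ℝ)..1, x * R x) * IB + 2 * (η' * IR) := by ring
    _ ≤ 2 * (1 - ε) / τ * (∫ x in (0:ℝ)..1, x * R x) * IB + 1 * IB + η := by linarith

end

end Pool.Agent.Y240.SW
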