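import Mathlib

set_option autoImplicit false

/-!
SW project (helper745, MP_6bc78b_nt), job DF, part 1: sums of the von Mangoldt function over short
multiplicative intervals, from Mertens' theorem.
-/

namespace Pool.Agent.Y240.SW

open ArithmeticFunction

theorem log_factorial (N : ℕ) :
    Real.log (N.factorial : ℝ) = ∑ d ∈ Finset.Icc 1 N, vonMangoldt d * ((N / d : ℕ) : ℝ) := by
  have h1 : Real.log (N.factorial : ℝ) = ∑ n ∈ Finset.Ioc 0 N, Real.log n := by
    induction N with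
    | zero => simp
    | succ N ih =>
      rw [Nat.factorial_succ, Finset.sum_Ioc_succ_top (Nat.zero_le _), ← ih]
      push_cast
      rw [Real.log_mul (by positivity) (by exact_mod_cast N.factorial_ne_zero), add_comm]
  have h2 := sum_Ioc_mul_zeta_eq_sum (R := ℝ) vonMangoldt N
  rw [vonMangoldt_mul_zeta] at h2
  rw [h1, show Finset.Icc 1 N = Finset.Ioc 0 N from rfl]
  simpa using h2

theorem mertens_lower (N : ℕ) (hN : 1 ≤ N) :
    Real.log N - 1 ≤ ∑ d ∈ Finset.Icc 1 N, vonMangoldt d / d := by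
  have hN' : (0 : ℝ) < N := by exact_mod_cast hN
  have hN1 : (1 : ℝ) ≤ N := by exact_mod_cast hN
  have hlo : N * Real.log N - N ≤ Real.log (N.factorial : ℝ) := by
    have h1 := Stirling.le_log_factorial_stirling (n := N) (by omega)
    have h2 : 0 ≤ Real.log N := Real.log_nonneg hN1
    have h3 : 0 ≤ Real.log (2 * Real.pi) := Real.log_nonneg (by linarith [Real.pi_gt_three])
    linarith
  have h2 : Real.log (N.factorial : ℝ) ≤
      N * ∑ d ∈ Finset.Icc 1 N, vonMangoldt d / d := by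
    rw [log_factorial, Finset.mul_sum]
    refine Finset.sum_le_sum fun d hd => ?_
    have hd0 : (0 : ℝ) < d := by exact_mod_cast (Finset.mem_Icc.1 hd).1
    have h3 : ((N / d : ℕ) : ℝ) ≤ N / d := Nat.cast_div_le
    have h4 : 0 ≤ vonMangoldt d := vonMangoldt_nonneg
    calc vonMangoldt d * ((N / d : ℕ) : ℝ)
        ≤ vonMangoldt d * (N / d) := mul_le_mul_of_nonneg_left h3 h4
      _ = N * (vonMangoldt d / d) := by ring
  have h3 : N * (Real.log N - 1) ≤
      N * ∑ d ∈ Finset.Icc 1 N, vonMangoldt d / d := by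
    calc N * (Real.log N - 1) = N * Real.log N - N := by ring
      _ ≤ _ := hlo.trans h2
  exact le_of_mul_le_mul_left h3 hN'

theorem mertens_upper (N : ℕ) (hN : 1 ≤ N) :
    ∑ d ∈ Finset.Icc 1 N, vonMangoldt d / d ≤ Real.log N + 6 := by
  have hN' : (0 : ℝ) < N := by exact_mod_cast hN
  have hN1 : (1 : ℝ) ≤ N := by exact_mod_cast hN
  have hup : Real.log (N.factorial : ℝ) ≤ N * Real.log N := by
    rw [← Real.log_pow]
    apply Real.log_le_log
    · exact_mod_cast N.factorial_pos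
    · exact_mod_cast N.factorial_le_pow
  have hpsi : ∑ d ∈ Finset.Icc 1 N, vonMangoldt d ≤ 6 * N := by
    have h := Chebyshev.psi_le_const_mul_self (x := (N : ℝ)) hN'.le
    rw [Chebyshev.psi, Nat.floor_natCast] at h
    have h3 : Real.log 4 ≤ 2 := by
      have : Real.log 4 = 2 * Real.log 2 := by
        rw [show (4 : ℝ) = 2 ^ 2 by norm_num, Real.log_pow]; norm_num
      have := Real.log_two_lt_d9
      linarith
    have h4 : (Real.log 4 + 4) * N ≤ 6 * N := mul_le_mul_of_nonneg_right (by linarith) hN'.le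
    exact le_trans (le_of_eq rfl) (h.trans h4)
  have h2 : N * ∑ d ∈ Finset.Icc 1 N, vonMangoldt d / d -
      ∑ d ∈ Finset.Icc 1 N, vonMangoldt d ≤ Real.log (N.factorial : ℝ) := by
    rw [log_factorial, Finset.mul_sum, ← Finset.sum_sub_distrib]
    refine Finset.sum_le_sum fun d hd => ?_
    have hd0 : (0 : ℝ) < d := by exact_mod_cast (Finset.mem_Icc.1 hd).1
    have h3 : (N : ℝ) / d - 1 ≤ ((N / d : ℕ) : ℝ) := by
      have h6 : (N : ℝ) / d < ((N / d : ℕ) : ℝ) + 1 := by
        rw [← Nat.floor_div_eq_div (K := ℝ)]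
        exact Nat.lt_floor_add_one _
      linarith
    have h4 : 0 ≤ vonMangoldt d := vonMangoldt_nonneg
    calc N * (vonMangoldt d / d) - vonMangoldt d
        = vonMangoldt d * (N / d - 1) := by ring
      _ ≤ vonMangoldt d * ((N / d : ℕ) : ℝ) := mul_le_mul_of_nonneg_left h3 h4
  have h3 : N * ∑ d ∈ Finset.Icc 1 N, vonMangoldt d / d ≤
      N * (Real.log N + 6) := by
    have : N * (Real.log N + 6) = N * Real.log N + 6 * N := by ring
    linarith
  exact le_of_mul_le_mul_left h3 hN'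

/-- the sum of `Λ(n)/n` over `e^{v-ℓ} ≤ n ≤ e^v` is at most `ℓ + 8` -/
theorem short_sum (X : ℕ) {v ℓ : ℝ} (hv : 0 ≤ v) (hℓ : 0 ≤ ℓ) :
    ∑ n ∈ (Finset.Icc 1 X).filter (fun n : ℕ => Real.log n ≤ v ∧ v ≤ Real.log n + ℓ),
      vonMangoldt n / n ≤ ℓ + 8 := by
  classical
  set N1 : ℕ := ⌊Real.exp v⌋₊ with hN1
  have hN1' : 1 ≤ N1 := Nat.one_le_floor_iff _ |>.2 (Real.one_le_exp hv)
  have hlogN1 : Real.log N1 ≤ v := by
    have h1 : (N1 : ℝ) ≤ Real.exp v := Nat.floor_le (Real.exp_pos _).le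
    calc Real.log N1 ≤ Real.log (Real.exp v) :=
          Real.log_le_log (by exact_mod_cast hN1') h1
      _ = v := Real.log_exp v
  have hmem : ∀ n : ℕ, 1 ≤ n → Real.log n ≤ v → n ≤ N1 := by
    intro n hn h
    apply Nat.le_floor
    rw [← Real.exp_log (show (0:ℝ) < n by exact_mod_cast hn)]
    exact Real.exp_le_exp.2 h
  have hnn : ∀ n : ℕ, 0 ≤ vonMangoldt n / (n:ℝ) := fun n =>
    div_nonneg vonMangoldt_nonneg (Nat.cast_nonneg n)
  rcases le_or_gt v ℓ with hc | hc
  · calc ∑ n ∈ (Finset.Icc 1 X).filter (fun n : ℕ => Real.log n ≤ v ∧ v ≤ Real.log n + ℓ),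
          vonMangoldt n / n
        ≤ ∑ n ∈ Finset.Icc 1 N1, vonMangoldt n / n := by
          apply Finset.sum_le_sum_of_subset_of_nonneg
          · intro n hn
            rw [Finset.mem_filter, Finset.mem_Icc] at hn
            rw [Finset.mem_Icc]
            exact ⟨hn.1.1, hmem n hn.1.1 hn.2.1⟩
          · intro n _ _; exact hnn n
      _ ≤ Real.log N1 + 6 := mertens_upper N1 hN1'
      _ ≤ ℓ + 8 := by linarith
  · set M : ℕ := ⌈Real.exp (v - ℓ)⌉₊ with hM
    have he1 : 1 < Real.exp (v - ℓ) := Real.one_lt_exp_iff.2 (by linarith)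
    have hM0 : Real.exp (v - ℓ) ≤ M := Nat.le_ceil _
    have hM2 : 2 ≤ M := by
      have : (1:ℝ) < M := lt_of_lt_of_le he1 hM0
      exact_mod_cast this
    have hM1 : 1 ≤ M - 1 := by omega
    have hcast : ((M - 1 : ℕ) : ℝ) = (M:ℝ) - 1 := by
      rw [Nat.cast_sub (by omega)]; simp
    have hlogM : v - ℓ - 1 ≤ Real.log ((M - 1 : ℕ) : ℝ) := by
      have h1 : Real.exp (v - ℓ) / 2 ≤ ((M - 1 : ℕ) : ℝ) := by
        rw [hcast]
        have : (2:ℝ) ≤ M := by exact_mod_cast hM2
        linarith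
      have h2 : Real.log (Real.exp (v - ℓ) / 2) ≤ Real.log ((M - 1 : ℕ) : ℝ) :=
        Real.log_le_log (by positivity) h1
      rw [Real.log_div (Real.exp_pos _).ne' (by norm_num), Real.log_exp] at h2
      have := Real.log_two_lt_d9
      linarith
    have hlow := mertens_lower (M - 1) hM1
    have hdisj : Disjoint ((Finset.Icc 1 X).filter
        (fun n : ℕ => Real.log n ≤ v ∧ v ≤ Real.log n + ℓ)) (Finset.Icc 1 (M - 1)) := by
      rw [Finset.disjoint_left]
      intro n hn hn2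
      rw [Finset.mem_filter, Finset.mem_Icc] at hn
      rw [Finset.mem_Icc] at hn2
      have hn0 : (0:ℝ) < n := by exact_mod_cast hn.1.1
      have h1 : Real.exp (v - ℓ) ≤ n := by
        rw [← Real.exp_log hn0]
        exact Real.exp_le_exp.2 (by linarith [hn.2.2])
      have h2 : M ≤ n := Nat.ceil_le.2 h1
      omega
    have hMN : M - 1 ≤ N1 := by
      have h1 : ((M:ℝ)) < Real.exp (v - ℓ) + 1 := Nat.ceil_lt_add_one (Real.exp_pos _).le
      have h2 : Real.exp (v - ℓ) ≤ Real.exp v := Real.exp_le_exp.2 (by linarith)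
      apply Nat.le_floor
      rw [hcast]
      linarith
    have h3 : ∑ n ∈ (Finset.Icc 1 X).filter (fun n : ℕ => Real.log n ≤ v ∧ v ≤ Real.log n + ℓ),
          vonMangoldt n / (n:ℝ) + ∑ n ∈ Finset.Icc 1 (M - 1), vonMangoldt n / (n:ℝ) ≤
        ∑ n ∈ Finset.Icc 1 N1, vonMangoldt n / (n:ℝ) := by
      rw [← Finset.sum_union hdisj]
      apply Finset.sum_le_sum_of_subset_of_nonneg
      · intro n hn
        rw [Finset.mem_union, Finset.mem_filter, Finset.mem_Icc, Finset.mem_Icc] at hn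
        rw [Finset.mem_Icc]
        rcases hn with hn | hn
        · exact ⟨hn.1.1, hmem n hn.1.1 hn.2.1⟩
        · exact ⟨hn.1, hn.2.trans hMN⟩
      · intro n _ _; exact hnn n
    have h4 := mertens_upper N1 hN1'
    linarith

/-- the same for `Λ(n)²/n` -/
theorem short_sum_sq (X : ℕ) (x ℓ : ℝ) (hℓ : 0 ≤ ℓ) :
    ∑ n ∈ Finset.Icc 1 X, (if Real.log n ≤ x ∧ x ≤ Real.log n + ℓ then
      vonMangoldt n ^ 2 / (n:ℝ) else 0) ≤ (ℓ + 8) * |x| := by
  classical
  rw [← Finset.sum_filter]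
  rcases lt_or_ge x 0 with hx | hx
  · have : (Finset.Icc 1 X).filter (fun n : ℕ => Real.log n ≤ x ∧ x ≤ Real.log n + ℓ) = ∅ := by
      rw [Finset.filter_eq_empty_iff]
      intro n hn h
      have := Real.log_natCast_nonneg n
      linarith [h.1]
    rw [this, Finset.sum_empty]
    positivity
  · rw [abs_of_nonneg hx]
    calc ∑ n ∈ (Finset.Icc 1 X).filter (fun n : ℕ => Real.log n ≤ x ∧ x ≤ Real.log n + ℓ),
          vonMangoldt n ^ 2 / (n:ℝ)
        ≤ ∑ n ∈ (Finset.Icc 1 X).filter (fun n : ℕ => Real.log n ≤ x ∧ x ≤ Real.log n + ℓ),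
          x * (vonMangoldt n / (n:ℝ)) := by
          apply Finset.sum_le_sum
          intro n hn
          rw [Finset.mem_filter, Finset.mem_Icc] at hn
          have hn0 : (0:ℝ) < n := by exact_mod_cast hn.1.1
          have h1 : vonMangoldt n ≤ Real.log n := vonMangoldt_le_log
          have h2 : 0 ≤ vonMangoldt n := vonMangoldt_nonneg
          rw [sq, mul_div_assoc]
          exact mul_le_mul_of_nonneg_right (h1.trans hn.2.1) (div_nonneg h2 hn0.le)
      _ = x * ∑ n ∈ (Finset.Icc 1 X).filter (fun n : ℕ => Real.log n ≤ x ∧ x ≤ Real.log n + ℓ),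
          (vonMangoldt n / (n:ℝ)) := by rw [Finset.mul_sum]
      _ ≤ x * (ℓ + 8) := mul_le_mul_of_nonneg_left (short_sum X hx hℓ) hx
      _ = (ℓ + 8) * x := mul_comm _ _

end Pool.Agent.Y240.SW
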