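import Pool.Agent.Y240.SW.DF1

set_option autoImplicit false

/-!
SW project (helper745, MP_6bc78b_nt), job DF, part 2: averages of the sum of `Λ(n)²/n` against a kernel, and the
Gaussian kernel.
-/

namespace Pool.Agent.Y240.SW

open ArithmeticFunction MeasureTheory

noncomputable section

theorem kernel_sum (h : ℝ → ℝ) (hc : Continuous h) (h0 : ∀ x, 0 ≤ h x) (hi : Integrable h)
    (hi1 : Integrable (fun x => |x| * h x)) (X : ℕ) (v ℓ : ℝ) (hℓ : 0 ≤ ℓ) :
    ∑ n ∈ Finset.Icc 1 X, vonMangoldt n ^ 2 / (n:ℝ) * ∫ s in (0:ℝ)..ℓ, h (v - Real.log n - s) ≤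
      (ℓ + 8) * (|v| * (∫ x, h x) + ∫ x, |x| * h x) := by
  have hi' : Integrable (fun x => h (v - x)) := hi.comp_sub_left v
  have hi1' : Integrable (fun x => |v - x| * h (v - x)) := hi1.comp_sub_left v
  have hdom : Integrable (fun x => |v| * h (v - x) + |v - x| * h (v - x)) := (hi'.const_mul _).add hi1'
  have hle : ∀ x, |x| * h (v - x) ≤ |v| * h (v - x) + |v - x| * h (v - x) := by
    intro x
    rw [← add_mul]
    apply mul_le_mul_of_nonneg_right _ (h0 _)
    have : x = v - (v - x) := by ring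
    calc |x| = |v - (v - x)| := by rw [← this]
      _ ≤ |v| + |v - x| := abs_sub _ _
  have hxi : Integrable (fun x => |x| * h (v - x)) := by
    refine hdom.mono' ((continuous_abs.mul (hc.comp (continuous_const.sub continuous_id))).aestronglyMeasurable)
      (Filter.Eventually.of_forall fun x => ?_)
    rw [Real.norm_of_nonneg (mul_nonneg (abs_nonneg _) (h0 _))]
    exact hle x
  have hterm : ∀ n ∈ Finset.Icc 1 X, vonMangoldt n ^ 2 / (n:ℝ) * ∫ s in (0:ℝ)..ℓ, h (v - Real.log n - s) =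
      ∫ x, (if Real.log n ≤ x ∧ x ≤ Real.log n + ℓ then vonMangoldt n ^ 2 / (n:ℝ) else 0) * h (v - x) := by
    intro n _
    have e1 : ∫ s in (0:ℝ)..ℓ, h (v - Real.log n - s) = ∫ x in (Real.log n)..(Real.log n + ℓ), h (v - x) := by
      have := intervalIntegral.integral_comp_add_left (a := 0) (b := ℓ) (fun x => h (v - x)) (Real.log n)
      rw [add_zero] at this
      rw [← this]
      congr 1
      funext s
      rw [sub_add_eq_sub_sub]
    rw [e1, intervalIntegral.integral_of_le (by linarith), ← integral_Icc_eq_integral_Ioc,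
      ← integral_indicator measurableSet_Icc, ← integral_const_mul]
    congr 1
    funext x
    by_cases hx : x ∈ Set.Icc (Real.log n) (Real.log n + ℓ)
    · rw [Set.indicator_of_mem hx, if_pos ⟨hx.1, hx.2⟩]
    · rw [Set.indicator_of_notMem hx, if_neg (fun h' => hx ⟨h'.1, h'.2⟩), mul_zero, zero_mul]
  rw [Finset.sum_congr rfl hterm]
  have hint : ∀ n ∈ Finset.Icc 1 X, Integrable (fun x =>
      (if Real.log n ≤ x ∧ x ≤ Real.log n + ℓ then vonMangoldt n ^ 2 / (n:ℝ) else 0) * h (v - x)) := by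
    intro n _
    have : (fun x => (if Real.log n ≤ x ∧ x ≤ Real.log n + ℓ then vonMangoldt n ^ 2 / (n:ℝ) else 0) * h (v - x)) =
        (Set.Icc (Real.log n) (Real.log n + ℓ)).indicator (fun x => vonMangoldt n ^ 2 / (n:ℝ) * h (v - x)) := by
      funext x
      by_cases hx : x ∈ Set.Icc (Real.log n) (Real.log n + ℓ)
      · rw [Set.indicator_of_mem hx, if_pos ⟨hx.1, hx.2⟩]
      · rw [Set.indicator_of_notMem hx, if_neg (fun h' => hx ⟨h'.1, h'.2⟩), zero_mul]
    rw [this]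
    exact (hi'.const_mul _).indicator measurableSet_Icc
  rw [← integral_finsetSum _ hint]
  calc ∫ x, ∑ n ∈ Finset.Icc 1 X,
        (if Real.log n ≤ x ∧ x ≤ Real.log n + ℓ then vonMangoldt n ^ 2 / (n:ℝ) else 0) * h (v - x)
      ≤ ∫ x, (ℓ + 8) * (|x| * h (v - x)) := by
        apply integral_mono (integrable_finsetSum _ hint) (hxi.const_mul _)
        intro x
        show ∑ n ∈ Finset.Icc 1 X,
          (if Real.log n ≤ x ∧ x ≤ Real.log n + ℓ then vonMangoldt n ^ 2 / (n:ℝ) else 0) * h (v - x) ≤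
            (ℓ + 8) * (|x| * h (v - x))
        rw [← Finset.sum_mul, ← mul_assoc]
        exact mul_le_mul_of_nonneg_right (short_sum_sq X x ℓ hℓ) (h0 _)
    _ = (ℓ + 8) * ∫ x, |x| * h (v - x) := integral_const_mul _ _
    _ ≤ (ℓ + 8) * ∫ x, (|v| * h (v - x) + |v - x| * h (v - x)) := by
        apply mul_le_mul_of_nonneg_left _ (by linarith)
        exact integral_mono hxi hdom hle
    _ = (ℓ + 8) * (|v| * (∫ x, h x) + ∫ x, |x| * h x) := by
        rw [integral_add (hi'.const_mul _) hi1', integral_const_mul]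
        rw [integral_sub_left_eq_self h volume v, integral_sub_left_eq_self (fun x => |x| * h x) volume v]

/-- the normalising constant of the Gaussian -/
def kap : ℝ := 1 / Real.sqrt (2 * Real.pi)

theorem kap_pos : 0 < kap := by unfold kap; positivity

theorem gauss_cont (c : ℝ) : Continuous (fun x : ℝ => Real.exp (-x ^ 2 / c)) := by fun_prop

theorem gauss_int {c : ℝ} (hc : 0 < c) : Integrable (fun x : ℝ => Real.exp (-x ^ 2 / c)) := by
  have := integrable_exp_neg_mul_sq (b := 1 / c) (by positivity)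
  refine this.congr (Filter.Eventually.of_forall fun x => ?_)
  show Real.exp (-(1 / c) * x ^ 2) = Real.exp (-x ^ 2 / c)
  congr 1; ring

theorem gauss_int1 {c : ℝ} (hc : 0 < c) : Integrable (fun x : ℝ => |x| * Real.exp (-x ^ 2 / c)) := by
  have := (integrable_mul_exp_neg_mul_sq (b := 1 / c) (by positivity)).norm
  refine this.congr (Filter.Eventually.of_forall fun x => ?_)
  show ‖x * Real.exp (-(1 / c) * x ^ 2)‖ = |x| * Real.exp (-x ^ 2 / c)
  rw [norm_mul, Real.norm_eq_abs, Real.norm_of_nonneg (Real.exp_pos _).le]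
  congr 2; ring

theorem kap_gauss : kap * ∫ x : ℝ, Real.exp (-x ^ 2 / 2) = 1 := by
  have h := integral_gaussian (1 / 2)
  have e : (fun x : ℝ => Real.exp (-(1 / 2) * x ^ 2)) = fun x : ℝ => Real.exp (-x ^ 2 / 2) := by
    funext x; congr 1; ring
  rw [e] at h
  rw [h, kap, show Real.pi / (1 / 2) = 2 * Real.pi by ring, one_div, inv_mul_cancel₀]
  positivity

/-- the total mass of `e^{-(u+ξa-w)²/2}` in the variable `ξ` -/
theorem kap_gauss_affine {a : ℝ} (ha : 0 < a) (u w : ℝ) :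
    kap * ∫ ξ : ℝ, Real.exp (-(u + ξ * a - w) ^ 2 / 2) = 1 / a := by
  have h := MeasureTheory.Measure.integral_comp_mul_right (fun x : ℝ => Real.exp (-(u + x - w) ^ 2 / 2)) a
  rw [h, smul_eq_mul, abs_of_pos (inv_pos.2 ha)]
  have h2 := integral_add_right_eq_self (μ := (volume : Measure ℝ)) (fun x : ℝ => Real.exp (-x ^ 2 / 2)) (u - w)
  have e : (fun x : ℝ => Real.exp (-(u + x - w) ^ 2 / 2)) = fun x : ℝ => Real.exp (-(x + (u - w)) ^ 2 / 2) := by
    funext x; congr 3; ring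
  rw [e, h2, ← mul_assoc, mul_comm kap, mul_assoc, kap_gauss, mul_one, one_div]

theorem gauss_affine_int {a : ℝ} (ha : 0 < a) (u w : ℝ) :
    Integrable (fun ξ : ℝ => Real.exp (-(u + ξ * a - w) ^ 2 / 2)) := by
  have h1 := ((gauss_int (c := 2) (by norm_num)).comp_add_right (u - w))
  have h2 := h1.comp_mul_right' (R := a) ha.ne'
  refine h2.congr (Filter.Eventually.of_forall fun x => ?_)
  show Real.exp (-(x * a + (u - w)) ^ 2 / 2) = Real.exp (-(u + x * a - w) ^ 2 / 2)
  congr 3; ring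

/-- Jensen's inequality for the Gaussian average -/
theorem jensen {a : ℝ} (ha : 0 < a) (u w : ℝ) (f : ℝ → ℝ) (M : ℝ) (hf : Integrable f) (hM : ∀ x, |f x| ≤ M) :
    (kap * ∫ ξ, f ξ * Real.exp (-(u + ξ * a - w) ^ 2 / 2)) ^ 2 ≤
      1 / a * (kap * ∫ ξ, f ξ ^ 2 * Real.exp (-(u + ξ * a - w) ^ 2 / 2)) := by
  set e : ℝ → ℝ := fun ξ => Real.exp (-(u + ξ * a - w) ^ 2 / 2) with he
  have hec : Continuous e := by rw [he]; fun_prop
  have he1 : ∀ ξ, e ξ ≤ 1 := fun ξ => by
    rw [he]; apply Real.exp_le_one_iff.2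
    have := sq_nonneg (u + ξ * a - w)
    linarith
  have he0 : ∀ ξ, 0 ≤ e ξ := fun ξ => (Real.exp_pos _).le
  have hM0 : 0 ≤ M := (abs_nonneg _).trans (hM 0)
  have hi0 : Integrable e := gauss_affine_int ha u w
  have hi1 : Integrable (fun ξ => f ξ * e ξ) := by
    refine hf.mul_bdd (c := 1) hec.aestronglyMeasurable (Filter.Eventually.of_forall fun x => ?_)
    rw [Real.norm_of_nonneg (he0 x)]; exact he1 x
  have hi2 : Integrable (fun ξ => f ξ ^ 2 * e ξ) := by
    have : Integrable (fun ξ => f ξ * (f ξ * e ξ)) := by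
      refine hi1.bdd_mul (c := M) hf.aestronglyMeasurable (Filter.Eventually.of_forall fun x => ?_)
      rw [Real.norm_eq_abs]; exact hM x
    refine this.congr (Filter.Eventually.of_forall fun x => ?_)
    show f x * (f x * e x) = f x ^ 2 * e x
    ring
  set I0 := kap * ∫ ξ, e ξ with hI0
  set I1 := kap * ∫ ξ, f ξ * e ξ with hI1
  set I2 := kap * ∫ ξ, f ξ ^ 2 * e ξ with hI2
  have hI0' : I0 = 1 / a := kap_gauss_affine ha u w
  have key : ∀ l : ℝ, 0 ≤ I2 - 2 * l * I1 + l ^ 2 * I0 := by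
    intro l
    have h1 : 0 ≤ kap * ∫ ξ, (f ξ - l) ^ 2 * e ξ :=
      mul_nonneg kap_pos.le (integral_nonneg fun ξ => mul_nonneg (sq_nonneg _) (he0 _))
    have h2 : ∫ ξ, (f ξ - l) ^ 2 * e ξ = (∫ ξ, f ξ ^ 2 * e ξ) - 2 * l * (∫ ξ, f ξ * e ξ) + l ^ 2 * ∫ ξ, e ξ := by
      have hA : Integrable (fun ξ => f ξ ^ 2 * e ξ - 2 * l * (f ξ * e ξ)) := hi2.sub (hi1.const_mul _)
      rw [← integral_const_mul, ← integral_const_mul, ← integral_sub hi2 (hi1.const_mul _),
        ← integral_add hA (hi0.const_mul _)]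
      congr 1
      funext ξ
      ring
    rw [h2] at h1
    calc (0:ℝ) ≤ _ := h1
      _ = I2 - 2 * l * I1 + l ^ 2 * I0 := by rw [hI0, hI1, hI2]; ring
  have h1 := key (a * I1)
  rw [hI0'] at h1
  have h2 : I2 - 2 * (a * I1) * I1 + (a * I1) ^ 2 * (1 / a) = I2 - a * I1 ^ 2 := by
    field_simp
    ring
  rw [h2] at h1
  rw [one_div, inv_mul_eq_div, le_div_iff₀ ha]
  linarith

/-- the moment of the Gaussian -/
def m1 : ℝ := ∫ x : ℝ, |x| * (kap * Real.exp (-x ^ 2 / 2))

theorem m1_nonneg : 0 ≤ m1 := by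
  unfold m1
  exact integral_nonneg fun x => mul_nonneg (abs_nonneg _) (mul_nonneg kap_pos.le (Real.exp_pos _).le)

/-- the Gaussian average over a long window -/
theorem gauss_sum (X : ℕ) (v ℓ : ℝ) (hℓ : 0 ≤ ℓ) :
    ∑ n ∈ Finset.Icc 1 X, vonMangoldt n ^ 2 / (n:ℝ) *
      ∫ s in (0:ℝ)..ℓ, kap * Real.exp (-(v - Real.log n - s) ^ 2 / 2) ≤ (ℓ + 8) * (|v| + m1) := by
  have h := kernel_sum (fun x => kap * Real.exp (-x ^ 2 / 2)) (continuous_const.mul (gauss_cont 2))
    (fun x => mul_nonneg kap_pos.le (Real.exp_pos _).le) ((gauss_int (by norm_num)).const_mul _)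
    (by
      have := (gauss_int1 (c := 2) (by norm_num)).const_mul kap
      refine this.congr (Filter.Eventually.of_forall fun x => ?_)
      show kap * (|x| * Real.exp (-x ^ 2 / 2)) = |x| * (kap * Real.exp (-x ^ 2 / 2))
      ring) X v ℓ hℓ
  rw [integral_const_mul, kap_gauss, mul_one] at h
  exact h

/-- the Gaussian sum is at most linear -/
theorem gauss_lin : ∃ C : ℝ, 0 < C ∧ ∀ (X : ℕ) (v : ℝ), ∑ n ∈ Finset.Icc 1 X, vonMangoldt n ^ 2 / (n:ℝ) *
    (kap * Real.exp (-(v - Real.log n) ^ 2 / 2)) ≤ C * (1 + |v|) := by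
  set m0 := ∫ x : ℝ, Real.exp (-x ^ 2 / 4) with hm0
  set m2 := ∫ x : ℝ, |x| * Real.exp (-x ^ 2 / 4) with hm2
  have hm0' : 0 ≤ m0 := integral_nonneg fun x => (Real.exp_pos _).le
  have hm2' : 0 ≤ m2 := integral_nonneg fun x => mul_nonneg (abs_nonneg _) (Real.exp_pos _).le
  have hE := Real.exp_pos (1 / 2)
  refine ⟨kap * Real.exp (1 / 2) * (9 * (m0 + m2)) + 1, by
    have := kap_pos; positivity, fun X v => ?_⟩
  have hcomp : ∀ x : ℝ, Real.exp (-x ^ 2 / 2) ≤ Real.exp (1 / 2) * ∫ s in (0:ℝ)..1, Real.exp (-(x - s) ^ 2 / 4) := by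
    intro x
    have h1 : ∫ _s in (0:ℝ)..1, Real.exp (-x ^ 2 / 2 - 1 / 2) ≤ ∫ s in (0:ℝ)..1, Real.exp (-(x - s) ^ 2 / 4) := by
      apply intervalIntegral.integral_mono_on (by norm_num) (by simp)
        (Continuous.intervalIntegrable (by fun_prop) _ _)
      intro s hs
      apply Real.exp_le_exp.2
      nlinarith [sq_nonneg (x + s), hs.1, hs.2, sq_nonneg x]
    rw [intervalIntegral.integral_const, sub_zero, one_smul] at h1
    calc Real.exp (-x ^ 2 / 2) = Real.exp (1 / 2) * Real.exp (-x ^ 2 / 2 - 1 / 2) := by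
          rw [← Real.exp_add]; congr 1; ring
      _ ≤ _ := mul_le_mul_of_nonneg_left h1 hE.le
  have h := kernel_sum (fun x => Real.exp (-x ^ 2 / 4)) (gauss_cont 4) (fun x => (Real.exp_pos _).le)
    (gauss_int (by norm_num)) (gauss_int1 (by norm_num)) X v 1 zero_le_one
  calc ∑ n ∈ Finset.Icc 1 X, vonMangoldt n ^ 2 / (n:ℝ) * (kap * Real.exp (-(v - Real.log n) ^ 2 / 2))
      ≤ ∑ n ∈ Finset.Icc 1 X, kap * Real.exp (1 / 2) * (vonMangoldt n ^ 2 / (n:ℝ) *
          ∫ s in (0:ℝ)..1, Real.exp (-(v - Real.log n - s) ^ 2 / 4)) := by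
        apply Finset.sum_le_sum
        intro n _
        have h1 := hcomp (v - Real.log n)
        have h2 : 0 ≤ vonMangoldt n ^ 2 / (n:ℝ) := by positivity
        calc vonMangoldt n ^ 2 / (n:ℝ) * (kap * Real.exp (-(v - Real.log n) ^ 2 / 2))
            ≤ vonMangoldt n ^ 2 / (n:ℝ) * (kap * (Real.exp (1 / 2) *
              ∫ s in (0:ℝ)..1, Real.exp (-(v - Real.log n - s) ^ 2 / 4))) := by
              have := kap_pos
              gcongr
          _ = _ := by ring
    _ = kap * Real.exp (1 / 2) * ∑ n ∈ Finset.Icc 1 X, (vonMangoldt n ^ 2 / (n:ℝ) *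
          ∫ s in (0:ℝ)..1, Real.exp (-(v - Real.log n - s) ^ 2 / 4)) := by rw [Finset.mul_sum]
    _ ≤ kap * Real.exp (1 / 2) * ((1 + 8) * (|v| * m0 + m2)) := by
        have := kap_pos
        exact mul_le_mul_of_nonneg_left h (by positivity)
    _ ≤ (kap * Real.exp (1 / 2) * (9 * (m0 + m2)) + 1) * (1 + |v|) := by
        have h1 := abs_nonneg v
        have h2 : (1 + 8) * (|v| * m0 + m2) ≤ 9 * (m0 + m2) * (1 + |v|) := by nlinarith
        have h3 : 0 < kap * Real.exp (1 / 2) := mul_pos kap_pos hE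
        nlinarith [mul_le_mul_of_nonneg_left h2 h3.le]

end

end Pool.Agent.Y240.SW
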